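import Mathlib

/-!
The exclusive sum number of a finite graph is bounded by a function of its sum index:
`ε(G) ≤ σ(G) * 3 ^ (σ(G) - 1)`.
-/

namespace Pool.Agent.Results.MP_091b59_co.ExclusiveBounded

open Finset

variable {V : Type*}

/-- The set of edge sums `{f u + f v : uv ∈ E(G)}` of a labelling `f`. -/
def edgeSums (G : SimpleGraph V) (f : V → ℤ) : Set ℤ :=
  {s | ∃ u v, G.Adj u v ∧ f u + f v = s}

/-- The sum index: the least number of distinct edge sums over all injective labellings by
integers. -/
noncomputable def sumIndex (G : SimpleGraph V) : ℕ :=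
  sInf {k | ∃ f : V → ℤ, Function.Injective f ∧ (edgeSums G f).ncard = k}

/-- `G` together with `r` new isolated vertices (the graph `G ⊕g ⊥` on `V ⊕ Fin r`) has an
injective labelling `g` by positive integers which makes it a sum graph, and such that for each
edge `uv` of `G` the value `g u + g v` is the label of one of the `r` added vertices. -/
def HasExclusiveLabelling (G : SimpleGraph V) (r : ℕ) : Prop :=
  ∃ g : V ⊕ Fin r → ℤ, Function.Injective g ∧ (∀ x, 0 < g x) ∧
    (∀ x y, x ≠ y → ((G.sum (⊥ : SimpleGraph (Fin r))).Adj x y ↔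
      ∃ w, g x + g y = g w)) ∧
    ∀ u v, G.Adj u v → ∃ j : Fin r, g (Sum.inl u) + g (Sum.inl v) = g (Sum.inr j)

/-- The exclusive sum number: the least `r` admitting an exclusive labelling. -/
noncomputable def exclusiveSumNumber (G : SimpleGraph V) : ℕ :=
  sInf {r | HasExclusiveLabelling G r}

theorem edgeSums_finite [Finite V] (G : SimpleGraph V) (f : V → ℤ) : (edgeSums G f).Finite := by
  apply (Set.finite_range (fun p : V × V => f p.1 + f p.2)).subset
  rintro s ⟨u, v, _, rfl⟩
  exact ⟨(u, v), rfl⟩

/-- An exact injective labelling gives an exclusive labelling with as many added vertices as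
there are edge sums. -/
theorem exclusive_of_exact [Finite V] (G : SimpleGraph V) (h : V → ℤ)
    (hinj : Function.Injective h)
    (hex : ∀ u v, u ≠ v → h u + h v ∈ edgeSums G h → G.Adj u v) :
    HasExclusiveLabelling G (edgeSums G h).ncard := by
  classical
  have : Fintype V := Fintype.ofFinite V
  -- a bound on the labels
  obtain ⟨m, hm⟩ : ∃ m : ℤ, ∀ v, |h v| ≤ m := by
    refine ⟨∑ v, |h v|, fun v => ?_⟩
    exact Finset.single_le_sum (f := fun v => |h v|) (fun v _ => abs_nonneg _) (Finset.mem_univ v)
  by_cases hV : IsEmpty V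
  · -- no vertices
    have hempty : edgeSums G h = ∅ := by
      ext s; constructor
      · rintro ⟨u, _⟩; exact (hV.false u).elim
      · intro hs; exact hs.elim
    rw [hempty, Set.ncard_empty]
    refine ⟨fun x => x.elim (fun v => (hV.false v).elim) (fun j => j.elim0), ?_, ?_, ?_, ?_⟩
    · rintro (x | x)
      · exact (hV.false x).elim
      · exact x.elim0
    · rintro (x | x)
      · exact (hV.false x).elim
      · exact x.elim0
    · rintro (x | x)
      · exact (hV.false x).elim
      · exact x.elim0
    · intro u; exact (hV.false u).elim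
  rw [not_isEmpty_iff] at hV
  obtain ⟨v₀⟩ := hV
  have hm0 : 0 ≤ m := le_trans (abs_nonneg _) (hm v₀)
  have hfin := edgeSums_finite G h
  set S := hfin.toFinset with hS
  have hcard : (edgeSums G h).ncard = S.card := by
    rw [Set.ncard_eq_toFinset_card _ hfin]
  rw [hcard]
  let e : Fin S.card ≃ S := S.equivFin.symm
  set T : ℤ := 5 * m + 1 with hT
  have hb : ∀ v, -m ≤ h v ∧ h v ≤ m := fun v => abs_le.mp (hm v)
  have hSb : ∀ j : Fin S.card, -(2 * m) ≤ ((e j : ℤ)) ∧ ((e j : ℤ)) ≤ 2 * m := by
    intro j
    have hj : ((e j : ℤ)) ∈ edgeSums G h := hfin.mem_toFinset.mp (e j).2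
    obtain ⟨u, v, _, huv⟩ := hj
    have h1 := hb u
    have h2 := hb v
    constructor <;> rw [← huv] <;> linarith [h1.1, h1.2, h2.1, h2.2]
  let g : V ⊕ Fin S.card → ℤ := fun x => x.elim (fun v => h v + T) (fun j => (e j : ℤ) + 2 * T)
  have hgl : ∀ v, g (Sum.inl v) = h v + T := fun v => rfl
  have hgr : ∀ j, g (Sum.inr j) = (e j : ℤ) + 2 * T := fun j => rfl
  refine ⟨g, ?_, ?_, ?_, ?_⟩
  · rintro (x | x) (y | y) hxy
    · rw [hgl, hgl] at hxy
      rw [hinj (add_right_cancel hxy)]
    · rw [hgl, hgr] at hxy
      have := (hb x).2; have := (hSb y).1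
      linarith
    · rw [hgl, hgr] at hxy
      have := (hb y).2; have := (hSb x).1
      linarith
    · rw [hgr, hgr] at hxy
      have : e x = e y := Subtype.ext (add_right_cancel hxy)
      rw [e.injective this]
  · rintro (x | x)
    · rw [hgl]; linarith [(hb x).1]
    · rw [hgr]; linarith [(hSb x).1]
  · rintro (x | x) (y | y) hxy
    · -- both in V
      have hne : x ≠ y := fun hh => hxy (by rw [hh])
      rw [SimpleGraph.sum_adj_inl]
      constructor
      · intro hadj
        have hmem : h x + h y ∈ S := by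
          rw [hS, Set.Finite.mem_toFinset]; exact ⟨x, y, hadj, rfl⟩
        refine ⟨Sum.inr (e.symm ⟨h x + h y, hmem⟩), ?_⟩
        rw [hgl, hgl, hgr, Equiv.apply_symm_apply]
        ring
      · rintro ⟨w | w, hw⟩
        · rw [hgl, hgl, hgl] at hw
          linarith [(hb x).1, (hb y).1, (hb w).2]
        · rw [hgl, hgl, hgr] at hw
          have hw' : h x + h y = (e w : ℤ) := by linarith
          apply hex x y hne
          rw [hw']
          exact hfin.mem_toFinset.mp (e w).2
    · constructor
      · intro hadj; simp at hadj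
      · rintro ⟨w | w, hw⟩
        · rw [hgl, hgr, hgl] at hw
          linarith [(hb x).1, (hSb y).1, (hb w).2]
        · rw [hgl, hgr, hgr] at hw
          linarith [(hb x).1, (hSb y).1, (hSb w).2]
    · constructor
      · intro hadj; simp at hadj
      · rintro ⟨w | w, hw⟩
        · rw [hgl, hgr, hgl] at hw
          linarith [(hb y).1, (hSb x).1, (hb w).2]
        · rw [hgl, hgr, hgr] at hw
          linarith [(hb y).1, (hSb x).1, (hSb w).2]
    · constructor
      · intro hadj; simp at hadj
      · rintro ⟨w | w, hw⟩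
        · rw [hgr, hgr, hgl] at hw
          linarith [(hSb x).1, (hSb y).1, (hb w).2]
        · rw [hgr, hgr, hgr] at hw
          linarith [(hSb x).1, (hSb y).1, (hSb w).2]
  · intro u v hadj
    have hmem : h u + h v ∈ S := by
      rw [hS, Set.Finite.mem_toFinset]; exact ⟨u, v, hadj, rfl⟩
    refine ⟨e.symm ⟨h u + h v, hmem⟩, ?_⟩
    rw [hgl, hgl, hgr, Equiv.apply_symm_apply]
    ring

/-- From an injective labelling with `C` edge sums we obtain an exact one with at most
`C * 3 ^ (C - 1)` edge sums. -/
theorem exists_exact [Finite V] (G : SimpleGraph V) (f : V → ℤ) (hf : Function.Injective f) :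
    ∃ h : V → ℤ, Function.Injective h ∧
      (∀ u v, u ≠ v → h u + h v ∈ edgeSums G h → G.Adj u v) ∧
      (edgeSums G h).ncard ≤ (edgeSums G f).ncard * 3 ^ ((edgeSums G f).ncard - 1) := by
  classical
  have hfin := edgeSums_finite G f
  set S := hfin.toFinset with hS
  have hcard : (edgeSums G f).ncard = S.card := by
    rw [Set.ncard_eq_toFinset_card _ hfin]
  rw [hcard]
  set C := S.card with hC
  let e : Fin C ≃ S := S.equivFin.symm
  -- status vector of a vertex
  let c : V → Fin C → ℕ := fun v i => if ∃ w, G.Adj v w ∧ f v + f w = (e i : ℤ) then 1 else 0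
  have hc1 : ∀ v i, c v i ≤ 1 := by
    intro v i; show (if _ then 1 else 0) ≤ 1; split_ifs <;> simp
  let D : V → ℕ := fun v => ∑ i : Fin C, c v i * 3 ^ (i : ℕ)
  let ψ : V → V → Fin C → Fin 3 := fun u v i =>
    ⟨c u i + c v i, by have := hc1 u i; have := hc1 v i; omega⟩
  have hψ : ∀ u v, D u + D v = (finFunctionFinEquiv (ψ u v) : ℕ) := by
    intro u v
    rw [finFunctionFinEquiv_apply]
    show ∑ i : Fin C, c u i * 3 ^ (i : ℕ) + ∑ i : Fin C, c v i * 3 ^ (i : ℕ) = _
    rw [← Finset.sum_add_distrib]
    apply Finset.sum_congr rfl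
    intro i _
    show _ = (c u i + c v i) * 3 ^ (i : ℕ)
    ring
  have hlt : ∀ u v, D u + D v < 3 ^ C := by
    intro u v; rw [hψ]; exact Fin.is_lt _
  let h : V → ℤ := fun v => 3 ^ C * f v + D v
  -- decoding of equal sums
  have hdec : ∀ u v a b, h u + h v = h a + h b →
      f u + f v = f a + f b ∧ ψ u v = ψ a b := by
    intro u v a b hs
    have hs' : (3 ^ C : ℤ) * (f u + f v) + ((D u + D v : ℕ) : ℤ) =
        (3 ^ C : ℤ) * (f a + f b) + ((D a + D b : ℕ) : ℤ) := by
      push_cast
      show _
      have : h u + h v = h a + h b := hs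
      simp only [h] at this
      linarith
    have h1 := hlt u v
    have h2 := hlt a b
    have h3 : f u + f v = f a + f b := by
      have hpos : (0 : ℤ) < 3 ^ C := by positivity
      have e1 : ((3 ^ C : ℤ) * (f u + f v) + ((D u + D v : ℕ) : ℤ)) / 3 ^ C = f u + f v := by
        rw [add_comm, Int.add_mul_ediv_left _ _ hpos.ne']
        rw [Int.ediv_eq_zero_of_lt (by positivity) (by exact_mod_cast h1)]
        ring
      have e2 : ((3 ^ C : ℤ) * (f a + f b) + ((D a + D b : ℕ) : ℤ)) / 3 ^ C = f a + f b := by
        rw [add_comm, Int.add_mul_ediv_left _ _ hpos.ne']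
        rw [Int.ediv_eq_zero_of_lt (by positivity) (by exact_mod_cast h2)]
        ring
      rw [← e1, ← e2, hs']
    refine ⟨h3, ?_⟩
    rw [h3] at hs'
    have h4 : D u + D v = D a + D b := by
      have := add_left_cancel hs'
      exact_mod_cast this
    rw [hψ, hψ] at h4
    exact finFunctionFinEquiv.injective (Fin.ext h4)
  -- value of ψ at the edge index
  have hψedge : ∀ a b, G.Adj a b → ∀ i, (e i : ℤ) = f a + f b → ψ a b i = 2 := by
    intro a b hab i hi
    have ha : c a i = 1 := by
      show (if _ then 1 else 0) = 1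
      rw [if_pos]; exact ⟨b, hab, hi.symm⟩
    have hb : c b i = 1 := by
      show (if _ then 1 else 0) = 1
      rw [if_pos]; exact ⟨a, hab.symm, by rw [add_comm, hi]⟩
    apply Fin.ext
    show c a i + c b i = 2
    omega
  refine ⟨h, ?_, ?_, ?_⟩
  · -- injectivity
    intro u v huv
    have hs : h u + h u = h v + h v := by rw [huv]
    have := (hdec u u v v hs).1
    apply hf
    linarith
  · -- exactness
    rintro u v huv ⟨a, b, hab, hsum⟩
    obtain ⟨h1, h2⟩ := hdec u v a b hsum.symm
    have hmem : f a + f b ∈ S := by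
      rw [hS, Set.Finite.mem_toFinset]; exact ⟨a, b, hab, rfl⟩
    set i := e.symm ⟨f a + f b, hmem⟩ with hi
    have hei : (e i : ℤ) = f a + f b := by rw [hi, Equiv.apply_symm_apply]
    have h3 := hψedge a b hab i hei
    rw [← h2] at h3
    have h4 : c u i + c v i = 2 := congrArg Fin.val h3
    have h5 : c u i = 1 := by have := hc1 u i; have := hc1 v i; omega
    have h6 : ∃ w, G.Adj u w ∧ f u + f w = (e i : ℤ) := by
      by_contra hcon
      have : c u i = 0 := by
        show (if _ then 1 else 0) = 0
        rw [if_neg hcon]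
      omega
    obtain ⟨w, huw, hw⟩ := h6
    have hwv : f w = f v := by
      have : f u + f w = f u + f v := by rw [hw, hei, h1]
      exact add_left_cancel this
    rw [← hf hwv]
    exact huw
  · -- counting
    let P : Fin C → Finset (Fin C → Fin 3) := fun i =>
      Fintype.piFinset (fun j => if j = i then {2} else Finset.univ)
    have hP : ∀ i, (P i).card = 3 ^ (C - 1) := by
      intro i
      show (Fintype.piFinset _).card = _
      rw [Fintype.card_piFinset]
      rw [← Finset.mul_prod_erase Finset.univ _ (Finset.mem_univ i)]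
      rw [if_pos rfl, Finset.card_singleton, one_mul]
      rw [Finset.prod_congr rfl (g := fun _ => 3)]
      · rw [Finset.prod_const, Finset.card_erase_of_mem (Finset.mem_univ i), Finset.card_univ,
          Fintype.card_fin]
      · intro j hj
        rw [if_neg (Finset.ne_of_mem_erase hj)]
        rfl
    let F : Finset ℤ := Finset.univ.biUnion (fun i : Fin C =>
      (P i).image (fun φ => (3 ^ C : ℤ) * (e i : ℤ) + ((finFunctionFinEquiv φ : ℕ) : ℤ)))
    have hsub : edgeSums G h ⊆ (F : Set ℤ) := by
      rintro s ⟨a, b, hab, rfl⟩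
      have hmem : f a + f b ∈ S := by
        rw [hS, Set.Finite.mem_toFinset]; exact ⟨a, b, hab, rfl⟩
      set i := e.symm ⟨f a + f b, hmem⟩ with hi
      have hei : (e i : ℤ) = f a + f b := by rw [hi, Equiv.apply_symm_apply]
      rw [Finset.mem_coe, Finset.mem_biUnion]
      refine ⟨i, Finset.mem_univ _, ?_⟩
      rw [Finset.mem_image]
      refine ⟨ψ a b, ?_, ?_⟩
      · rw [Fintype.mem_piFinset]
        intro j
        by_cases hj : j = i
        · rw [if_pos hj, Finset.mem_singleton, hj]
          exact hψedge a b hab i hei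
        · rw [if_neg hj]; exact Finset.mem_univ _
      · rw [← hψ, hei]
        show _ = (3 ^ C * f a + (D a : ℤ)) + (3 ^ C * f b + (D b : ℤ))
        push_cast
        ring
    calc (edgeSums G h).ncard ≤ (F : Set ℤ).ncard :=
          Set.ncard_le_ncard hsub (Finset.finite_toSet F)
      _ = F.card := Set.ncard_coe_finset F
      _ ≤ ∑ i : Fin C, ((P i).image _).card := Finset.card_biUnion_le
      _ ≤ ∑ i : Fin C, 3 ^ (C - 1) := by
          apply Finset.sum_le_sum
          intro i _
          exact le_trans Finset.card_image_le (hP i).le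
      _ = C * 3 ^ (C - 1) := by
          rw [Finset.sum_const, Finset.card_univ, Fintype.card_fin, smul_eq_mul]

theorem sumIndex_attained [Finite V] (G : SimpleGraph V) :
    ∃ f : V → ℤ, Function.Injective f ∧ (edgeSums G f).ncard = sumIndex G := by
  have hne : {k | ∃ f : V → ℤ, Function.Injective f ∧ (edgeSums G f).ncard = k}.Nonempty := by
    obtain ⟨n, ⟨eq⟩⟩ := Finite.exists_equiv_fin V
    refine ⟨_, fun v => ((eq v : ℕ) : ℤ), ?_, rfl⟩
    intro u v huv
    have huv' : ((eq u : ℕ) : ℤ) = ((eq v : ℕ) : ℤ) := huv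
    exact eq.injective (Fin.ext (by exact_mod_cast huv'))
  exact Nat.sInf_mem hne

/-- **Main result.** For every finite graph `G`, the exclusive sum number exists and is at most
`σ(G) * 3 ^ (σ(G) - 1)`, where `σ(G)` is the sum index. -/
theorem result {V : Type*} [Finite V] (G : SimpleGraph V) :
    HasExclusiveLabelling G (exclusiveSumNumber G) ∧
      exclusiveSumNumber G ≤ sumIndex G * 3 ^ (sumIndex G - 1) := by
  obtain ⟨f, hf, hfs⟩ := sumIndex_attained G
  obtain ⟨h, hinj, hex, hcard⟩ := exists_exact G f hf
  have hmem : (edgeSums G h).ncard ∈ {r | HasExclusiveLabelling G r} :=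
    exclusive_of_exact G h hinj hex
  refine ⟨Nat.sInf_mem ⟨_, hmem⟩, ?_⟩
  rw [← hfs]
  exact le_trans (Nat.sInf_le hmem) hcard

end Pool.Agent.Results.MP_091b59_co.ExclusiveBounded
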